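import Pool.Agent.H999R3.Tm.Asm

/-!
Tight manifolds of every dimension `d ≥ 7` whose iterated subdivisions are far from perfect.
The mod 3 Moore space `LL` on 8 vertices is used with `m` additional vertices which are not faces.
-/

set_option autoImplicit false

namespace Pool.Agent.Y105.TM

open Finset Module
open Pool.Agent.H999R3.Tm

noncomputable section

/-- a quantitative form of `not_perfect` -/
theorem gap {F : Type} [Field F] (C : Cplx) (h : C.V → ℕ) (hh : Function.Injective h)
    (n g : ℕ) (hle : be (ZMod 2) h C.X (n + 2) + g ≤ be F h C.X (n + 2)) (k : ℕ)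
    (f : Finset (Cplx.sd^[k] C).V → ℝ) (hf : (Cplx.sd^[k] C).IsMorse f) :
    (Cplx.sd^[k] C).betti (n + 1) + g ≤ ((Cplx.sd^[k] C).crit f (n + 1)).ncard := by
  have h1 := morse (F := F) (Cplx.sd^[k] C) (enum _) (enum_inj _) f hf n
  have h3 := be_iter (F := F) (n + 2) k C (enum _) h (enum_inj _) hh
  have h4 := be_iter (F := ZMod 2) (n + 2) k C (enum _) h (enum_inj _) hh
  rw [Cplx.betti_eq _ (enum _) n, h4]
  have h5 : be F h C.X (n + 2) ≤ ((Cplx.sd^[k] C).crit f (n + 1)).ncard := by
    rw [← h3]; exact h1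
  omega

variable (m : ℕ)

/-- the vertices: the eight vertices of the Moore space and `m` further ones -/
abbrev Vm : Type := Fin 8 ⊕ Fin m

/-- the Moore space as a complex on `Vm m` -/
def Lm : Set (Finset (Vm m)) := {s | ∃ T ∈ LL, s = T.map ⟨Sum.inl, Sum.inl_injective⟩}

theorem Lm_down : Down (Lm m) := by
  rintro s ⟨T, hT, rfl⟩ t hts
  refine ⟨univ.filter fun a => Sum.inl a ∈ t, LL_down T hT _ ?_, ?_⟩
  · intro a ha
    rw [mem_filter] at ha
    have h1 := hts ha.2
    rw [mem_map] at h1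
    obtain ⟨b, hb, hb2⟩ := h1
    have h3 : b = a := Sum.inl_injective hb2
    rw [← h3]; exact hb
  · ext v
    rw [mem_map]
    constructor
    · intro hv
      have h1 := hts hv
      rw [mem_map] at h1
      obtain ⟨b, hb, hb2⟩ := h1
      refine ⟨b, ?_, hb2⟩
      rw [mem_filter]
      refine ⟨mem_univ _, ?_⟩
      have h3 : (Sum.inl b : Vm m) = v := hb2
      rw [h3]; exact hv
    · rintro ⟨b, hb, hb2⟩
      rw [mem_filter] at hb
      have h3 : (Sum.inl b : Vm m) = v := hb2
      rw [← h3]; exact hb.2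

theorem Lm_card : ∀ s ∈ Lm m, s.card ≤ 3 := by
  rintro s ⟨T, hT, rfl⟩
  rw [card_map]
  exact LL_card T hT

theorem Lm_empty : (∅ : Finset (Vm m)) ∈ Lm m := ⟨∅, LL_empty, by simp⟩

theorem card_Vm : Fintype.card (Vm m) = 8 + m := by simp

theorem univ_not (s : Finset (Vm m)) (hs : s.card ≤ 0) : sᶜ ∉ Lm m := by
  intro h1
  have h2 := Lm_card m _ h1
  rw [card_compl, card_Vm] at h2
  omega

theorem Bi_empty : (∅ : Finset (Vm m ⊕ Vm m)) ∈ Bi (Lm m) := by
  have e1 : lf (∅ : Finset (Vm m ⊕ Vm m)) = ∅ := by ext v; simp [mem_lf]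
  have e2 : rt (∅ : Finset (Vm m ⊕ Vm m)) = ∅ := by ext v; simp [mem_rt]
  refine ⟨?_, ?_, ?_⟩
  · rw [e1]; exact Lm_empty m
  · rw [e2]; exact univ_not m _ (by simp)
  · rw [e2]; simp

/-- an order of the vertices of the Bier sphere -/
def hv : Vm m ⊕ Vm m → ℕ :=
  Sum.elim (Sum.elim (fun a => a.1) (fun j => 8 + j.1))
    (Sum.elim (fun a => 8 + m + a.1) (fun j => 16 + m + j.1))

theorem hv_inj : Function.Injective (hv m) := by
  rintro ((a | a) | (a | a)) ((b | b) | (b | b)) hab <;>
    simp only [hv, Sum.elim_inl, Sum.elim_inr] at hab <;>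
    first
      | (exfalso; have := a.2; have := b.2; omega)
      | (rw [Fin.ext (by omega : a.1 = b.1)])

/-- the inclusion of the eight vertices on the left -/
def em : Fin 8 ↪ Vm m ⊕ Vm m := ⟨fun a => Sum.inl (Sum.inl a), fun _ _ h =>
  Sum.inl_injective (Sum.inl_injective h)⟩

/-- `W` contains the eight left vertices and no right vertex -/
def Gd (W : Finset (Vm m ⊕ Vm m)) : Prop :=
  (∀ a : Fin 8, (Sum.inl (Sum.inl a) : Vm m ⊕ Vm m) ∈ W) ∧ ∀ v : Vm m, (Sum.inr v : Vm m ⊕ Vm m) ∉ W

open Classical in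
theorem cmp (W : Finset (Vm m ⊕ Vm m)) :
    be (ZMod 2) (hv m) (KW (Bi (Lm m)) W) 2 + (if Gd m W then 1 else 0) ≤
      be (ZMod 3) (hv m) (KW (Bi (Lm m)) W) 2 := by
  by_cases hW : ∃ v, Sum.inr v ∈ W
  · obtain ⟨v, hvW⟩ := hW
    have hg : ¬ Gd m W := fun h => h.2 v hvW
    rw [if_neg hg, add_zero]
    apply le_of_eq
    apply be2_cone (hv_inj m) (KW_down (Bi_down (Lm_down m)) W) (Sum.inl v) (Sum.inr v)
    rintro s ⟨h1, ⟨h2, h3, h4⟩, h5⟩ hcd
    have e1 : lf (insert (Sum.inr v) s) = lf s := by ext u; simp [mem_lf]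
    have e2 : rt (insert (Sum.inr v) s) = insert v (rt s) := by ext u; simp [mem_rt]
    refine ⟨by simp [h1], ⟨by rw [e1]; exact h2, ?_, ?_⟩, ?_⟩
    · rw [e2]
      intro h6
      have h7 := Lm_card m _ h6
      rw [card_compl, card_Vm] at h7
      have h8 : (insert v (rt s)).card ≤ (rt s).card + 1 := card_insert_le _ _
      have h9 : (rt s).card ≤ s.card := by
        apply card_le_card_of_injOn (fun v => (Sum.inr v : Vm m ⊕ Vm m))
        · intro u hu
          exact mem_rt.mp hu
        · intro a _ b _ hab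
          exact Sum.inr_injective hab
      omega
    · rw [e1, e2, disjoint_insert_right]
      exact ⟨fun h6 => h1 (mem_lf.mp h6), h4⟩
    · rw [insert_subset_iff]; exact ⟨hvW, h5⟩
  · have hW' : ∀ v : Vm m, (Sum.inr v : Vm m ⊕ Vm m) ∉ W := fun v hvW => hW ⟨v, hvW⟩
    set A : Finset (Fin 8) := univ.filter fun a => (Sum.inl (Sum.inl a) : Vm m ⊕ Vm m) ∈ W with hA
    have htr : ∀ (G : Type) [Field G], be G (hv m) (KW (Bi (Lm m)) W) 2 =
        be G (fun v : Fin 8 => h16 (Sum.inl v)) (KW LL A) 2 := by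
      intro G _
      apply be_map (em m) ?_ (KW_down LL_down A) ?_
      · intro u v
        simp only [em, hv, h16, Function.Embedding.coeFn_mk, Sum.elim_inl]
        omega
      · intro s
        constructor
        · rintro ⟨⟨⟨T, hT, hT2⟩, h3, h4⟩, h5⟩
          have hsT : T.map (em m) = s := by
            ext a
            rw [mem_map]
            constructor
            · rintro ⟨b, hb, rfl⟩
              have h6 : (Sum.inl b : Vm m) ∈ lf s := by
                rw [hT2, mem_map]; exact ⟨b, hb, rfl⟩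
              exact mem_lf.mp h6
            · intro ha
              rcases a with v | v
              · have h6 : v ∈ lf s := mem_lf.mpr ha
                rw [hT2, mem_map] at h6
                obtain ⟨b, hb, rfl⟩ := h6
                exact ⟨b, hb, rfl⟩
              · exact absurd (h5 ha) (hW' v)
          refine ⟨T, ⟨hT, ?_⟩, hsT⟩
          intro b hb
          rw [hA, mem_filter]
          refine ⟨mem_univ _, h5 ?_⟩
          rw [← hsT, mem_map]
          exact ⟨b, hb, rfl⟩
        · rintro ⟨T, ⟨h1, h2⟩, rfl⟩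
          have e1 : lf (T.map (em m)) = T.map ⟨Sum.inl, Sum.inl_injective⟩ := by
            ext u
            rw [mem_lf, mem_map, mem_map]
            constructor
            · rintro ⟨b, hb, hb2⟩
              exact ⟨b, hb, Sum.inl_injective hb2⟩
            · rintro ⟨b, hb, hb2⟩
              refine ⟨b, hb, ?_⟩
              have h3 : (Sum.inl b : Vm m) = u := hb2
              rw [← h3]; rfl
          have e2 : rt (T.map (em m)) = ∅ := by
            rw [Finset.eq_empty_iff_forall_notMem]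
            intro u hu
            rw [mem_rt, mem_map] at hu
            obtain ⟨b, hb, hb2⟩ := hu
            exact absurd hb2 (by simp [em])
          refine ⟨⟨by rw [e1]; exact ⟨T, h1, rfl⟩, by rw [e2]; exact univ_not m _ (by simp),
            by rw [e2]; simp⟩, ?_⟩
          intro a ha
          rw [mem_map] at ha
          obtain ⟨b, hb, rfl⟩ := ha
          have h3 := h2 hb
          rw [hA, mem_filter] at h3
          exact h3.2
    have hh' : Function.Injective (fun v : Fin 8 => h16 (Sum.inl v)) :=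
      h16_inj.comp Sum.inl_injective
    have hzero : Zc (ZMod 2) (fun v : Fin 8 => h16 (Sum.inl v)) (KW LL A) 3 = ⊥ := by
      rw [eq_bot_iff]
      intro c hc
      rw [mem_Zc] at hc
      exact z2_inj c (Sp_mono (fun s hs => hs.1) _ hc.1) hc.2
    have h1 := be2_top (F' := ZMod 3) hh' (KW_down LL_down A) hzero
    rw [htr (ZMod 2), htr (ZMod 3)]
    by_cases hg : Gd m W
    · rw [if_pos hg]
      have hAu : A = univ := by
        rw [eq_univ_iff_forall]
        intro a
        rw [hA, mem_filter]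
        exact ⟨mem_univ _, hg.1 a⟩
      have h2 : KW LL A = LL := by
        rw [hAu]; ext s; exact ⟨fun h => h.1, fun h => ⟨h, subset_univ _⟩⟩
      have h3 : 0 < finrank (ZMod 3) (Zc (ZMod 3) (fun v : Fin 8 => h16 (Sum.inl v)) (KW LL A) 3) := by
        rw [h2]
        apply Module.finrank_pos_iff_exists_ne_zero.mpr
        exact ⟨⟨z3, mem_Zc.mpr ⟨z3_mem, z3_D⟩⟩, fun h4 => z3_ne (congrArg Subtype.val h4)⟩
      omega
    · rw [if_neg hg]; omega

/-- sign vectors -/
def xS (p : Vm m ⊕ Vm m → ℝ) (S : Fin m → Bool) : SV (Vm m ⊕ Vm m) := fun i =>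
  Sum.elim (fun v : Vm m => Sum.elim (fun _ => - SignType.sign (p (Sum.inl v)))
      (fun j => if S j then - SignType.sign (p (Sum.inl v)) else SignType.sign (p (Sum.inl v))) v)
    (fun v : Vm m => SignType.sign (p (Sum.inr v))) i

theorem exists_p' : ∃ p : Vm m ⊕ Vm m → ℝ, Function.Injective (ell p) := by
  have h1 := (ae_inj (ι := Vm m ⊕ Vm m)).exists
  obtain ⟨p, hp⟩ := h1
  exact ⟨p.ofLp, hp⟩

theorem neg_sign (a : ℝ) : a * ((-(SignType.sign a : SignType) : SignType) : ℝ) = -|a| := by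
  have h4 : ((-(SignType.sign a) : SignType) : ℝ) = - ((SignType.sign a : SignType) : ℝ) := by
    rcases SignType.sign a with _ | _ | _ <;> simp
  rw [h4, mul_neg, p_sign]

open Classical in
theorem count (p : Vm m ⊕ Vm m → ℝ) (hp : Function.Injective (ell p)) :
    2 ^ m ≤ (univ.filter fun x : SV (Vm m ⊕ Vm m) => zs x = ∅ ∧ Gd m (Wx p x)).card := by
  have hc : (univ : Finset (Fin m → Bool)).card = 2 ^ m := by simp
  rw [← hc]
  have hpn : ∀ i, SignType.sign (p i) ≠ 0 := fun i h => p_ne hp i (sign_eq_zero_iff.mp h)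
  have hneg : ∀ i, - SignType.sign (p i) ≠ 0 := by
    intro i h3
    apply hpn i
    revert h3
    rcases SignType.sign (p i) with _ | _ | _ <;> decide
  have hnn : ∀ i, - SignType.sign (p i) ≠ SignType.sign (p i) := by
    intro i
    have h4 := hpn i
    revert h4
    rcases SignType.sign (p i) with _ | _ | _ <;> decide
  apply card_le_card_of_injOn (xS m p)
  · intro S _
    rw [mem_coe, mem_filter]
    refine ⟨mem_univ _, ?_, ?_, ?_⟩
    · rw [Finset.eq_empty_iff_forall_notMem]
      intro i hi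
      rw [mem_zs] at hi
      rcases i with (a | j) | v
      · exact hneg _ hi
      · simp only [xS, Sum.elim_inl, Sum.elim_inr] at hi
        split_ifs at hi
        · exact hneg _ hi
        · exact hpn _ hi
      · exact hpn _ hi
    · intro a
      rw [mem_Wx]
      show p (Sum.inl (Sum.inl a)) * ((-(SignType.sign (p (Sum.inl (Sum.inl a)))) : SignType) : ℝ) < 0
      rw [neg_sign]
      have := abs_pos.mpr (p_ne hp (Sum.inl (Sum.inl a)))
      linarith
    · intro v
      rw [mem_Wx]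
      show ¬ (p (Sum.inr v) * ((SignType.sign (p (Sum.inr v)) : SignType) : ℝ) < 0)
      rw [p_sign, not_lt]
      exact abs_nonneg _
  · intro S _ S' _ h
    funext j
    have h1 := congrFun h (Sum.inl (Sum.inr j))
    simp only [xS, Sum.elim_inl, Sum.elim_inr] at h1
    by_cases hS : S j = true
    · by_cases hS' : S' j = true
      · rw [hS, hS']
      · rw [if_pos hS, if_neg hS'] at h1
        exact absurd h1 (hnn _)
    · by_cases hS' : S' j = true
      · rw [if_neg hS, if_pos hS'] at h1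
        exact absurd h1.symm (hnn _)
      · rw [Bool.not_eq_true] at hS hS'
        rw [hS, hS']

theorem strictm : be (ZMod 2) (hz (Vm m ⊕ Vm m)) (XT (Bi (Lm m)) univ) 3 + 2 ^ m ≤
    be (ZMod 3) (hz (Vm m ⊕ Vm m)) (XT (Bi (Lm m)) univ) 3 := by
  classical
  obtain ⟨p, hp⟩ := exists_p' m
  have e2 := be_rz (F := ZMod 2) hz_inj hz_mono (hv_inj m) (Bi_down (Lm_down m)) (Bi_empty m) hp 1
  have e3 := be_rz (F := ZMod 3) hz_inj hz_mono (hv_inj m) (Bi_down (Lm_down m)) (Bi_empty m) hp 1
  show be (ZMod 2) (hz (Vm m ⊕ Vm m)) (XT (Bi (Lm m)) univ) (1 + 2) + 2 ^ m ≤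
    be (ZMod 3) (hz (Vm m ⊕ Vm m)) (XT (Bi (Lm m)) univ) (1 + 2)
  rw [e2, e3]
  have hc := count m p hp
  rw [card_filter] at hc
  refine (Nat.add_le_add_left hc _).trans ?_
  rw [← sum_add_distrib]
  apply sum_le_sum
  intro x _
  by_cases hx : zs x = ∅
  · rw [if_pos hx, if_pos hx]
    have h1 := cmp m (Wx p x)
    by_cases hg : Gd m (Wx p x)
    · rw [if_pos hg] at h1
      rw [if_pos ⟨hx, hg⟩]
      exact h1
    · rw [if_neg hg] at h1
      rw [if_neg (fun h => hg h.2)]
      exact h1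
  · rw [if_neg hx, if_neg hx, if_neg (fun h => hx h.1)]

/-- The general theorem. -/
theorem main (d : ℕ) (hd : 7 ≤ d) : ∃ C : Cplx, C.IsManifold d ∧ C.Tight ∧
    ∀ (k : ℕ) (f : Finset (Cplx.sd^[k] C).V → ℝ), (Cplx.sd^[k] C).IsMorse f →
      (Cplx.sd^[k] C).betti 2 + 2 ^ (d - 7) ≤ ((Cplx.sd^[k] C).crit f 2).ncard := by
  obtain ⟨m, rfl⟩ : ∃ m, d = 7 + m := ⟨d - 7, by omega⟩
  rw [Nat.add_sub_cancel_left]
  refine ⟨C0 (Bi (Lm m)), C0_manifold (Lm_down m) (by rw [card_Vm]; omega),
    tight_C0 (Bi_down (Lm_down m)) (Bi_empty m), fun k f hf => ?_⟩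
  apply gap (F := ZMod 3) (C0 (Bi (Lm m))) (hz (Vm m ⊕ Vm m)) hz_inj 1 (2 ^ m) _ k f hf
  rw [C0_X]
  exact strictm m

end

end Pool.Agent.Y105.TM
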